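import Pool.Agent.Helper58.DG.Goals

/-!
# Packet K_EQV of project DG: equivariance of the Jacobian determinant of the Einstein equations
-/

set_option autoImplicit false

namespace Pool.Agent.Helper90.DG

open Pool.Agent.Helper83.EIN Pool.Agent.Helper58.DG

/-- The Jacobian determinant of conjugate maps. -/
theorem jac_conj {m : ℕ} (f g : (Fin m → ℝ) → Fin m → ℝ) (e : (Fin m → ℝ) ≃L[ℝ] (Fin m → ℝ))
    (h : ∀ v, g (e v) = e (f v)) (x : Fin m → ℝ) : jac g (e x) = jac f x := by
  have hg : g = e ∘ (f ∘ e.symm) := by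
    funext v
    show g v = e (f (e.symm v))
    rw [← h, e.apply_symm_apply]
  have h1 : fderiv ℝ g (e x) = (e : (Fin m → ℝ) →L[ℝ] (Fin m → ℝ)).comp
      ((fderiv ℝ f x).comp (e.symm : (Fin m → ℝ) →L[ℝ] (Fin m → ℝ))) := by
    rw [hg, e.comp_fderiv, e.symm.comp_right_fderiv, e.symm_apply_apply]
  unfold jac
  rw [h1]
  exact LinearMap.det_conj (fderiv ℝ f x : (Fin m → ℝ) →ₗ[ℝ] (Fin m → ℝ)) e.toLinearEquiv

/-- Composition with a permutation. -/
noncomputable def P (π : Equiv.Perm (Fin 6)) : (Fin 6 → ℝ) ≃L[ℝ] (Fin 6 → ℝ) :=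
  (LinearEquiv.funCongrLeft ℝ ℝ π).toContinuousLinearEquiv

theorem P_apply (π : Equiv.Perm (Fin 6)) (v : Fin 6 → ℝ) : P π v = fun k ↦ v (π k) := rfl

/-- Good permutations. -/
def Good (σ : Equiv.Perm (Fin 4)) : Prop :=
  ∀ (ν : Fin 4 → ℝ) (x : Fin 4 → Fin 4 → ℝ), (∀ i j, x i j = x j i) →
    jac (PA fun i ↦ ν (σ i)) (vec fun i j ↦ x (σ i) (σ j)) = jac (PA ν) (vec x)

theorem good_of (σ : Equiv.Perm (Fin 4)) (π : Equiv.Perm (Fin 6))
    (h1 : ∀ x : Fin 4 → Fin 4 → ℝ, (∀ i j, x i j = x j i) →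
      vec (fun i j ↦ x (σ i) (σ j)) = fun k ↦ vec x (π k))
    (h2 : ∀ (ν : Fin 4 → ℝ) (v : Fin 6 → ℝ),
      PA (fun i ↦ ν (σ i)) (fun k ↦ v (π k)) = fun k ↦ PA ν v (π k)) : Good σ := by
  intro ν x hx
  rw [h1 x hx]
  exact jac_conj (PA ν) (PA fun i ↦ ν (σ i)) (P π) (fun v ↦ h2 ν v) (vec x)

theorem good_mul (σ τ : Equiv.Perm (Fin 4)) (hσ : Good σ) (hτ : Good τ) : Good (σ * τ) := by
  intro ν x hx
  have h := hτ (fun i ↦ ν (σ i)) (fun i j ↦ x (σ i) (σ j)) (fun i j ↦ hx _ _)
  exact h.trans (hσ ν x hx)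

theorem good_one : Good 1 := fun _ _ _ ↦ rfl

theorem good01 : Good (Equiv.swap 0 1) := by
  refine good_of _ (Equiv.swap 1 2 * Equiv.swap 3 4) ?_ ?_
  · intro x hx
    funext k
    fin_cases k <;> first | rfl | exact hx _ _
  · intro ν v
    funext k
    fin_cases k <;> simp [PA, Equiv.swap_apply_def] <;> first | ring1 | (left; ring1)

theorem good12 : Good (Equiv.swap 1 2) := by
  refine good_of _ (Equiv.swap 0 1 * Equiv.swap 4 5) ?_ ?_
  · intro x hx
    funext k
    fin_cases k <;> first | rfl | exact hx _ _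
  · intro ν v
    funext k
    fin_cases k <;> simp [PA, Equiv.swap_apply_def] <;> first | ring1 | (left; ring1)

theorem good23 : Good (Equiv.swap 2 3) := by
  refine good_of _ (Equiv.swap 1 3 * Equiv.swap 2 4) ?_ ?_
  · intro x hx
    funext k
    fin_cases k <;> first | rfl | exact hx _ _
  · intro ν v
    funext k
    fin_cases k <;> simp [PA, Equiv.swap_apply_def] <;> first | ring1 | (left; ring1)

theorem good02 : Good (Equiv.swap 0 2) := by
  have h : (Equiv.swap 0 2 : Equiv.Perm (Fin 4)) =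
      Equiv.swap 0 1 * (Equiv.swap 1 2 * Equiv.swap 0 1) := by decide
  rw [h]
  exact good_mul _ _ good01 (good_mul _ _ good12 good01)

theorem good13 : Good (Equiv.swap 1 3) := by
  have h : (Equiv.swap 1 3 : Equiv.Perm (Fin 4)) =
      Equiv.swap 1 2 * (Equiv.swap 2 3 * Equiv.swap 1 2) := by decide
  rw [h]
  exact good_mul _ _ good12 (good_mul _ _ good23 good12)

theorem good03 : Good (Equiv.swap 0 3) := by
  have h : (Equiv.swap 0 3 : Equiv.Perm (Fin 4)) =
      Equiv.swap 0 1 * (Equiv.swap 1 3 * Equiv.swap 0 1) := by decide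
  rw [h]
  exact good_mul _ _ good01 (good_mul _ _ good13 good01)

theorem good_swap (i j : Fin 4) (hij : i ≠ j) : Good (Equiv.swap i j) := by
  fin_cases i <;> fin_cases j
  · exact absurd rfl hij
  · exact good01
  · exact good02
  · exact good03
  · rw [Equiv.swap_comm]
    exact good01
  · exact absurd rfl hij
  · exact good12
  · exact good13
  · rw [Equiv.swap_comm]
    exact good02
  · rw [Equiv.swap_comm]
    exact good12
  · exact absurd rfl hij
  · exact good23
  · rw [Equiv.swap_comm]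
    exact good03
  · rw [Equiv.swap_comm]
    exact good13
  · rw [Equiv.swap_comm]
    exact good23
  · exact absurd rfl hij

theorem good_all (σ : Equiv.Perm (Fin 4)) : Good σ := by
  refine Equiv.Perm.swap_induction_on σ good_one ?_
  intro f x y hxy hf
  exact good_mul _ _ (good_swap x y hxy) hf

theorem k_eqv : Pool.Agent.Helper58.DG.K_EQV :=
  fun ν x hx σ ↦ good_all σ ν x hx

end Pool.Agent.Helper90.DG
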